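import Pool.Agent.Lib.MP_6bc78b_nt.GP.H52.Fin

/-! Project GP, module FIN with the exponent `9/2` (a variant of `H52/Fin.lean`): from the measure
of the bad centres to the sum of the squares of the gaps. -/

set_option autoImplicit false

open MeasureTheory Set Finset

namespace Pool.Agent.Lib.MP_6bc78b_nt.GP.H25

open Pool.Agent.Lib.MP_6bc78b_nt.GP.H52

/-- `L ^ (9/2)`. -/
noncomputable def EL (L : ℝ) : ℝ := L ^ 4 * Real.sqrt L

theorem EL_mono {x y : ℝ} (hx : 0 ≤ x) (hxy : x ≤ y) : EL x ≤ EL y := by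
  unfold EL
  exact mul_le_mul (pow_le_pow_left₀ hx hxy 4) (Real.sqrt_le_sqrt hxy) (Real.sqrt_nonneg _)
    (pow_nonneg (hx.trans hxy) 4)

theorem EL_nonneg {x : ℝ} : 0 ≤ EL x := by
  unfold EL
  have : x ^ 4 = (x ^ 2) ^ 2 := by ring
  rw [this]
  positivity

theorem EL_two {x : ℝ} (hx : 0 ≤ x) : EL (2 * x) ≤ 32 * EL x := by
  unfold EL
  have h1 : Real.sqrt (2 * x) ≤ 2 * Real.sqrt x := by
    rw [Real.sqrt_mul (by norm_num)]
    have h2 : Real.sqrt 2 ≤ 2 := by
      rw [Real.sqrt_le_left (by norm_num)]; norm_num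
    exact mul_le_mul_of_nonneg_right h2 (Real.sqrt_nonneg _)
  calc (2 * x) ^ 4 * Real.sqrt (2 * x) ≤ (2 * x) ^ 4 * (2 * Real.sqrt x) :=
        mul_le_mul_of_nonneg_left h1 (by positivity)
    _ = 32 * (x ^ 4 * Real.sqrt x) := by ring

theorem EL_half {x : ℝ} (hx : 1 / 2 ≤ x) : 1 / 32 ≤ EL x := by
  have h1 : EL (1 / 2) ≤ EL x := EL_mono (by norm_num) hx
  refine le_trans ?_ h1
  unfold EL
  have h2 : (1 / 2 : ℝ) ≤ Real.sqrt (1 / 2) := by
    apply Real.le_sqrt_of_sq_le; norm_num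
  calc (1 / 32 : ℝ) = (1 / 2) ^ 4 * (1 / 2) := by norm_num
    _ ≤ (1 / 2) ^ 4 * Real.sqrt (1 / 2) := mul_le_mul_of_nonneg_left h2 (by norm_num)

theorem EL_rpow {x : ℝ} (hx : 0 < x) : EL x = x ^ (9 / 2 : ℝ) := by
  unfold EL
  rw [Real.sqrt_eq_rpow, ← Real.rpow_natCast, ← Real.rpow_add hx]
  norm_num

/-- One dyadic block. -/
theorem block {P : ℝ → Prop} {C X : ℝ} (hC : 0 < C)
    (hbad : ∀ H : ℝ, 10 * Real.sqrt (Real.log X) ≤ H → H ≤ X / Real.log X →
      volume (Bad P X H) ≤ ENNReal.ofReal (C * X * Real.log X ^ 3 / H))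
    (hX1 : 1 ≤ Real.log X) (hX0 : 0 < X) (hX2 : 10 * Real.sqrt (Real.log X) ≤ X / Real.log X)
    (hX3 : (⌈Real.logb 2 X⌉₊ : ℝ) ≤ 3 * Real.log X) (hX4 : 25 * Real.log X ≤ X)
    {n : ℕ} {a b : Fin n → ℝ} (h0 : ∀ i, 0 ≤ a i) (hab : ∀ i, a i ≤ b i)
    (hd : ∀ i j, i ≠ j → Disjoint (Set.Ioo (a i) (b i)) (Set.Ioo (a j) (b j)))
    (hP : ∀ i, ∀ γ ∈ Set.Ioo (a i) (b i), ¬ P γ) :
    ∑ i, (b i - a i) * mm (a i) (b i) (Set.Icc X (2 * X)) ≤
      (76 * C + 200) * (X * EL (Real.log X)) := by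
  set L := Real.log X with hL
  set y₀ := 200 * L with hy₀
  have hy0 : 0 < y₀ := by positivity
  set N := ⌈Real.logb 2 (8 * X / y₀)⌉₊ with hN
  have hs1 : 1 ≤ Real.sqrt L := Real.one_le_sqrt.2 hX1
  have hs2 : Real.sqrt L * Real.sqrt L = L := Real.mul_self_sqrt (by linarith)
  have hsL : Real.sqrt L ≤ L := by nlinarith
  have hXe : 1 < X := by
    by_contra h
    have := Real.log_nonpos hX0.le (not_lt.1 h)
    linarith
  have hq0 : 0 < 8 * X / y₀ := by positivity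
  have hq1 : 1 ≤ 8 * X / y₀ := by
    rw [le_div_iff₀ hy0]; linarith
  have hNX : 8 * X ≤ 2 ^ N * y₀ := by
    have h1 : Real.logb 2 (8 * X / y₀) ≤ N := Nat.le_ceil _
    have h2 := (Real.logb_le_iff_le_rpow (by norm_num : (1 : ℝ) < 2) hq0).1 h1
    rw [Real.rpow_natCast, div_le_iff₀ hy0] at h2
    exact h2
  have hNX2 : (2 : ℝ) ^ N * y₀ ≤ 16 * X := by
    have h1 : (N : ℝ) < Real.logb 2 (8 * X / y₀) + 1 :=
      Nat.ceil_lt_add_one (Real.logb_nonneg (by norm_num) hq1)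
    have h2 : (2 : ℝ) ^ ((N : ℕ) : ℝ) ≤ 2 ^ (Real.logb 2 (8 * X / y₀) + 1) :=
      Real.rpow_le_rpow_of_exponent_le (by norm_num) h1.le
    rw [Real.rpow_natCast, Real.rpow_add (by norm_num), Real.rpow_logb (by norm_num) (by norm_num)
      hq0, Real.rpow_one] at h2
    calc (2 : ℝ) ^ N * y₀ ≤ 8 * X / y₀ * 2 * y₀ := mul_le_mul_of_nonneg_right h2 hy0.le
      _ = 16 * X := by field_simp; norm_num
  have hN3 : (N : ℝ) ≤ 3 * L := by
    refine le_trans ?_ hX3
    have h1 : 8 * X / y₀ ≤ X := by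
      rw [div_le_iff₀ hy0]
      nlinarith
    exact_mod_cast Nat.ceil_mono (Real.logb_le_logb_of_le (by norm_num) hq0 h1)
  have hmB : MeasurableSet (Set.Icc X (2 * X)) := measurableSet_Icc
  have hvB : volume (Set.Icc X (2 * X)) ≤ ENNReal.ofReal X := by
    rw [Real.volume_Icc]; apply le_of_eq; congr 1; ring
  -- all intervals meeting the block are shorter than `8 X`
  have hlen : ∀ i, (b i - a i) * mm (a i) (b i) (Set.Icc X (2 * X)) ≤
      (y₀ + ∑ j ∈ range N, if 2 ^ j * y₀ < b i - a i then 2 ^ j * y₀ else 0) *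
        mm (a i) (b i) (Set.Icc X (2 * X)) := by
    intro i
    rcases Set.eq_empty_or_nonempty (mid (a i) (b i) ∩ Set.Icc X (2 * X)) with h | ⟨t, ht1, ht2⟩
    · unfold mm; rw [h]; simp
    · apply mul_le_mul_of_nonneg_right _ (mm_nonneg _ _ _)
      apply layer y₀ _ hy0
      have h1 := ht1.1
      have h2 := ht2.2
      have h3 := h0 i
      have h4 : b i - a i ≤ 8 * X := by linarith
      exact h4.trans hNX
  refine (Finset.sum_le_sum fun i _ => hlen i).trans ?_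
  have e1 : ∀ i, (y₀ + ∑ j ∈ range N, if 2 ^ j * y₀ < b i - a i then 2 ^ j * y₀ else 0) *
        mm (a i) (b i) (Set.Icc X (2 * X)) = y₀ * mm (a i) (b i) (Set.Icc X (2 * X)) +
        ∑ j ∈ range N, (if 2 ^ j * y₀ < b i - a i then
          2 ^ j * y₀ * mm (a i) (b i) (Set.Icc X (2 * X)) else 0) := by
    intro i
    rw [add_mul, Finset.sum_mul]
    congr 1
    refine Finset.sum_congr rfl fun j _ => ?_
    split_ifs <;> simp
  rw [Finset.sum_congr rfl fun i _ => e1 i, Finset.sum_add_distrib, Finset.sum_comm]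
  have b1 : ∑ i, y₀ * mm (a i) (b i) (Set.Icc X (2 * X)) ≤ y₀ * X := by
    rw [← Finset.mul_sum]
    apply mul_le_mul_of_nonneg_left _ hy0.le
    exact sum_mm_le hab hd Finset.univ hmB (R := Set.Icc X (2 * X))
      (fun i _ => inter_subset_right) hX0.le hvB
  have b2 : ∀ j ∈ range N, ∑ i, (if 2 ^ j * y₀ < b i - a i then
          2 ^ j * y₀ * mm (a i) (b i) (Set.Icc X (2 * X)) else 0) ≤
        20 * C * (X * (L ^ 3 * Real.sqrt L)) + C * L ^ 4 * (2 ^ j * y₀) := by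
    intro j _
    rw [← Finset.sum_filter, ← Finset.mul_sum]
    set y := 2 ^ j * y₀ with hy
    have hyy : y₀ ≤ y := by
      have : (1 : ℝ) ≤ 2 ^ j := one_le_pow₀ (by norm_num)
      nlinarith
    have hy1 : 0 < y := by linarith
    set H := min (y / (20 * Real.sqrt L)) (X / L) with hH
    have hH0 : 0 < H := lt_min (by positivity) (by positivity)
    have hH1 : 10 * Real.sqrt L ≤ H := by
      refine le_min ?_ hX2
      rw [le_div_iff₀ (by positivity)]
      nlinarith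
    have hH2 : H ≤ X / L := min_le_right _ _
    have hH3 : H ≤ y / (20 * Real.sqrt L) := min_le_left _ _
    have hH4 : 5 * Real.sqrt L * H ≤ y / 4 := by
      have h1 := mul_le_mul_of_nonneg_left hH3 (by positivity : (0 : ℝ) ≤ 5 * Real.sqrt L)
      refine h1.trans (le_of_eq ?_)
      field_simp
      norm_num
    have hMpos : 0 ≤ C * X * L ^ 3 / H := by positivity
    have b3 : ∑ i ∈ Finset.univ.filter (fun i => y < b i - a i),
        mm (a i) (b i) (Set.Icc X (2 * X)) ≤ C * X * L ^ 3 / H := by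
      refine sum_mm_le hab hd _ hmB (R := Bad P X H) ?_ hMpos (hbad H hH1 hH2)
      intro i hi t ht
      have hi' := (Finset.mem_filter.1 hi).2
      refine ⟨ht.2.1, ht.2.2, fun γ hγ => hP i γ ?_⟩
      have h1 := ht.1.1
      have h2 := ht.1.2
      have h3 := abs_lt.1 (lt_of_lt_of_le hγ hH4)
      constructor <;> linarith [h3.1, h3.2]
    have b4 : 1 / H ≤ 20 * Real.sqrt L / y + L / X := by
      rcases min_choice (y / (20 * Real.sqrt L)) (X / L) with h | h
      · rw [hH, h, one_div_div]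
        have : 0 ≤ L / X := by positivity
        linarith
      · rw [hH, h, one_div_div]
        have : 0 ≤ 20 * Real.sqrt L / y := by positivity
        linarith
    calc y * ∑ i ∈ Finset.univ.filter (fun i => y < b i - a i),
        mm (a i) (b i) (Set.Icc X (2 * X)) ≤ y * (C * X * L ^ 3 / H) :=
          mul_le_mul_of_nonneg_left b3 hy1.le
      _ = (y * (C * X * L ^ 3)) * (1 / H) := by ring
      _ ≤ (y * (C * X * L ^ 3)) * (20 * Real.sqrt L / y + L / X) :=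
          mul_le_mul_of_nonneg_left b4 (by positivity)
      _ = 20 * C * (X * (L ^ 3 * Real.sqrt L)) + C * L ^ 4 * y := by
          field_simp
  have hE : EL L = L ^ 4 * Real.sqrt L := rfl
  have hE4 : L ^ 4 ≤ EL L := by
    rw [hE]; exact le_mul_of_one_le_right (by positivity) hs1
  have b5 : ∑ j ∈ range N, (20 * C * (X * (L ^ 3 * Real.sqrt L)) + C * L ^ 4 * (2 ^ j * y₀)) ≤
      76 * C * (X * EL L) := by
    rw [Finset.sum_add_distrib, Finset.sum_const, Finset.card_range, nsmul_eq_mul,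
      ← Finset.mul_sum, ← Finset.sum_mul]
    have h2 : ∑ j ∈ range N, (2 : ℝ) ^ j = 2 ^ N - 1 := by
      rw [geom_sum_eq (by norm_num)]; ring
    rw [h2]
    have h3 : (N : ℝ) * (20 * C * (X * (L ^ 3 * Real.sqrt L))) ≤
        3 * L * (20 * C * (X * (L ^ 3 * Real.sqrt L))) :=
      mul_le_mul_of_nonneg_right hN3 (by positivity)
    have h3' : 3 * L * (20 * C * (X * (L ^ 3 * Real.sqrt L))) = 60 * C * (X * EL L) := by
      rw [hE]; ring
    have h4 : ((2 : ℝ) ^ N - 1) * y₀ ≤ 16 * X := by linarith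
    have h5 : C * L ^ 4 * (((2 : ℝ) ^ N - 1) * y₀) ≤ C * L ^ 4 * (16 * X) :=
      mul_le_mul_of_nonneg_left h4 (by positivity)
    have h6 : C * L ^ 4 * (16 * X) ≤ C * EL L * (16 * X) :=
      mul_le_mul_of_nonneg_right (mul_le_mul_of_nonneg_left hE4 hC.le) (by positivity)
    linarith
  have b6 : y₀ * X ≤ 200 * (X * EL L) := by
    rw [hy₀]
    have h1 : L ≤ EL L := by
      refine le_trans ?_ hE4
      calc L = L ^ 1 := (pow_one L).symm
        _ ≤ L ^ 4 := pow_le_pow_right₀ hX1 (by norm_num)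
    nlinarith
  have b7 := Finset.sum_le_sum b2
  linarith

/-- Large `X`. -/
theorem ev_large' : ∃ T₁ : ℝ, 10 < T₁ ∧ ∀ X : ℝ, T₁ ≤ X → 1 ≤ Real.log X ∧
    10 * Real.sqrt (Real.log X) ≤ X / Real.log X ∧
    (⌈Real.logb 2 X⌉₊ : ℝ) ≤ 3 * Real.log X ∧ 25 * Real.log X ≤ X := by
  obtain ⟨T₁, hT₁, h⟩ := ev_large
  refine ⟨max T₁ (Real.exp 100), lt_of_lt_of_le hT₁ (le_max_left _ _), fun X hX => ?_⟩
  obtain ⟨h1, h2, h3⟩ := h X (le_trans (le_max_left _ _) hX)
  refine ⟨h1, h2, h3, ?_⟩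
  have hX0 : 0 < X := lt_of_lt_of_le (Real.exp_pos _) (le_trans (le_max_right _ _) hX)
  have hL : 100 ≤ Real.log X := by
    rw [← Real.log_exp 100]
    exact Real.log_le_log (Real.exp_pos _) (le_trans (le_max_right _ _) hX)
  have h4 := Real.pow_div_factorial_le_exp (Real.log X) (by linarith) 2
  rw [Real.exp_log hX0] at h4
  have h5 : Real.log X ^ 2 / 2 ≤ X := by simpa [Nat.factorial] using h4
  nlinarith

/-- The theorem, for any predicate `P`. -/
theorem fin_comb2 {P : ℝ → Prop} {C T₀ : ℝ} (hC : 0 < C)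
    (hbad : ∀ X H : ℝ, T₀ ≤ X → 10 * Real.sqrt (Real.log X) ≤ H → H ≤ X / Real.log X →
      volume (Bad P X H) ≤ ENNReal.ofReal (C * X * Real.log X ^ 3 / H)) :
    ∃ C' : ℝ, 0 < C' ∧ ∀ T : ℝ, 2 ≤ T → ∀ (n : ℕ) (a b : Fin n → ℝ),
      (∀ i, 0 ≤ a i ∧ a i ≤ b i ∧ b i ≤ T) →
      (∀ i j, i ≠ j → Disjoint (Set.Ioo (a i) (b i)) (Set.Ioo (a j) (b j))) →
      (∀ i, ∀ γ ∈ Set.Ioo (a i) (b i), ¬ P γ) →
        ∑ i, (b i - a i) ^ 2 ≤ C' * T * Real.log T ^ (9 / 2 : ℝ) := by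
  obtain ⟨T₂, hT₂, hlarge⟩ := ev_large'
  set T₁ := max T₀ T₂ with hT₁
  have hT1 : 10 < T₁ := lt_of_lt_of_le hT₂ (le_max_right _ _)
  set K := 76 * C + 200 with hK
  have hK0 : 0 < K := by positivity
  have key : ∀ (m : ℕ) (T L : ℝ), 0 ≤ T → T ≤ 2 ^ m * (2 * T₁) → 1 ≤ L → Real.log T ≤ L →
      ∀ (n : ℕ) (a b : Fin n → ℝ), (∀ i, 0 ≤ a i) → (∀ i, a i ≤ b i) →
      (∀ i j, i ≠ j → Disjoint (Set.Ioo (a i) (b i)) (Set.Ioo (a j) (b j))) →
      (∀ i, ∀ γ ∈ Set.Ioo (a i) (b i), ¬ P γ) →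
        ∑ i, (b i - a i) * mm (a i) (b i) (Set.Icc 0 T) ≤ K * (T * EL L) + 16 * T₁ ^ 2 := by
    have base : ∀ (T L : ℝ), 0 ≤ T → T ≤ 2 * T₁ → 1 ≤ L →
        ∀ (n : ℕ) (a b : Fin n → ℝ), (∀ i, 0 ≤ a i) → (∀ i, a i ≤ b i) →
        (∀ i j, i ≠ j → Disjoint (Set.Ioo (a i) (b i)) (Set.Ioo (a j) (b j))) →
          ∑ i, (b i - a i) * mm (a i) (b i) (Set.Icc 0 T) ≤ K * (T * EL L) + 16 * T₁ ^ 2 := by
      intro T L hT hT2 hL n a b h0 hab hd
      have h1 : ∀ i, (b i - a i) * mm (a i) (b i) (Set.Icc 0 T) ≤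
          4 * T * mm (a i) (b i) (Set.Icc 0 T) := by
        intro i
        rcases Set.eq_empty_or_nonempty (mid (a i) (b i) ∩ Set.Icc 0 T) with h | ⟨t, ht1, ht2⟩
        · unfold mm; rw [h]; simp
        · apply mul_le_mul_of_nonneg_right _ (mm_nonneg _ _ _)
          have h1 := ht1.1
          have h2 := ht2.2
          have h3 := h0 i
          linarith
      refine (Finset.sum_le_sum fun i _ => h1 i).trans ?_
      rw [← Finset.mul_sum]
      have h2 : ∑ i, mm (a i) (b i) (Set.Icc 0 T) ≤ T :=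
        sum_mm_le hab hd Finset.univ measurableSet_Icc (R := Set.Icc 0 T)
          (fun i _ => inter_subset_right) hT (by rw [Real.volume_Icc, sub_zero])
      have h3 : 4 * T * ∑ i, mm (a i) (b i) (Set.Icc 0 T) ≤ 4 * T * T :=
        mul_le_mul_of_nonneg_left h2 (by positivity)
      have h4 : 0 ≤ K * (T * EL L) := mul_nonneg hK0.le (mul_nonneg hT EL_nonneg)
      nlinarith
    intro m
    induction m with
    | zero =>
      intro T L hT hT2 hL _ n a b h0 hab hd _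
      exact base T L hT (by simpa using hT2) hL n a b h0 hab hd
    | succ m ih =>
      intro T L hT hT2 hL hTL n a b h0 hab hd hP
      by_cases hc : T ≤ 2 * T₁
      · exact base T L hT hc hL n a b h0 hab hd
      · push Not at hc
        set X := T / 2 with hX
        have hX0 : 0 < X := by linarith
        have hXT : T₁ ≤ X := by linarith
        have hlogX : Real.log X ≤ L := (Real.log_le_log hX0 (by linarith)).trans hTL
        have h1 := ih X L hX0.le (by rw [pow_succ] at hT2; linarith) hL hlogX n a b h0 hab hd hP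
        obtain ⟨l1, l2, l3, l4⟩ := hlarge X (le_trans (le_max_right _ _) hXT)
        have h2 := block hC (fun H hH1 hH2 => hbad X H (le_trans (le_max_left _ _) hXT) hH1 hH2)
          l1 hX0 l2 l3 l4 h0 hab hd hP
        have h3 : ∀ i, (b i - a i) * mm (a i) (b i) (Set.Icc 0 T) ≤
            (b i - a i) * mm (a i) (b i) (Set.Icc 0 X) +
              (b i - a i) * mm (a i) (b i) (Set.Icc X (2 * X)) := by
          intro i
          rw [← mul_add]
          apply mul_le_mul_of_nonneg_left _ (sub_nonneg.2 (hab i))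
          refine le_trans (mm_mono _ _ ?_) (mm_union_le _ _ _ _)
          intro t ht
          by_cases h : t ≤ X
          · exact Or.inl ⟨ht.1, h⟩
          · exact Or.inr ⟨(not_le.1 h).le, by linarith [ht.2]⟩
        refine (Finset.sum_le_sum fun i _ => h3 i).trans ?_
        rw [Finset.sum_add_distrib]
        have h4 : EL (Real.log X) ≤ EL L := EL_mono (by linarith) hlogX
        have h5 : K * (X * EL (Real.log X)) ≤ K * (X * EL L) :=
          mul_le_mul_of_nonneg_left (mul_le_mul_of_nonneg_left h4 hX0.le) hK0.le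
        have h6 : K * (T * EL L) = K * (X * EL L) + K * (X * EL L) := by rw [hX]; ring
        linarith
  have hl2 : (1 : ℝ) / 2 ≤ Real.log 2 := by have := Real.log_two_gt_d9; linarith
  refine ⟨64 * K + 32 * T₁ ^ 2 * 16, by positivity, ?_⟩
  intro T hT n a b h hd hP
  have hT0 : 0 < T := by linarith
  have hlog : Real.log 2 ≤ Real.log T := Real.log_le_log (by norm_num) hT
  have hlog0 : 1 / 2 ≤ Real.log T := hl2.trans hlog
  obtain ⟨m, hm⟩ : ∃ m : ℕ, T ≤ 2 ^ m * (2 * T₁) := by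
    obtain ⟨m, hm⟩ := pow_unbounded_of_one_lt T (by norm_num : (1 : ℝ) < 2)
    refine ⟨m, hm.le.trans ?_⟩
    have : (0 : ℝ) < 2 ^ m := by positivity
    nlinarith
  have h1 := key m T (2 * Real.log T) hT0.le hm (by linarith) (by linarith) n a b
    (fun i => (h i).1) (fun i => (h i).2.1) hd hP
  have h2 : ∀ i, (b i - a i) ^ 2 = 2 * ((b i - a i) * mm (a i) (b i) (Set.Icc 0 T)) := by
    intro i
    rw [mm_full (h i).2.1]
    · ring
    · intro t ht
      exact ⟨(h i).1.trans ht.1.le, ht.2.le.trans (h i).2.2⟩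
  rw [Finset.sum_congr rfl fun i _ => h2 i, ← Finset.mul_sum]
  rw [← EL_rpow (by linarith : 0 < Real.log T)]
  set E := EL (Real.log T) with hE
  have h3 : 1 / 32 ≤ E := EL_half hlog0
  have h4 : 1 ≤ T * E * 16 := by nlinarith
  have h5 : T₁ ^ 2 ≤ T₁ ^ 2 * (T * E * 16) := by
    have : 0 < T₁ ^ 2 := by positivity
    nlinarith
  have h6 : EL (2 * Real.log T) ≤ 32 * E := EL_two (by linarith)
  have h7 : K * (T * EL (2 * Real.log T)) ≤ K * (T * (32 * E)) :=
    mul_le_mul_of_nonneg_left (mul_le_mul_of_nonneg_left h6 hT0.le) hK0.le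
  calc 2 * ∑ i, (b i - a i) * mm (a i) (b i) (Set.Icc 0 T) ≤
      2 * (K * (T * (32 * E)) + 16 * T₁ ^ 2) := by linarith
    _ ≤ 2 * (K * (T * (32 * E)) + 16 * (T₁ ^ 2 * (T * E * 16))) := by
        linarith
    _ = (64 * K + 32 * T₁ ^ 2 * 16) * T * E := by ring

/-- The final statement with the exponent `9/2`. -/
def GapStatement2 : Prop := RiemannHypothesis → ∃ C : ℝ, 0 < C ∧ ∀ T : ℝ, 2 ≤ T →
  ∀ (n : ℕ) (a b : Fin n → ℝ), (∀ i, 0 ≤ a i ∧ a i ≤ b i ∧ b i ≤ T) →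
    (∀ i j, i ≠ j → Disjoint (Set.Ioo (a i) (b i)) (Set.Ioo (a j) (b j))) →
    (∀ i, ∀ γ ∈ Set.Ioo (a i) (b i), zeroMult γ ≠ 1) →
      ∑ i, (b i - a i) ^ 2 ≤ C * T * Real.log T ^ (9 / 2 : ℝ)

/-- FIN. -/
theorem fin2 (h : CHBStatement) : GapStatement2 := by
  intro hRH
  obtain ⟨C, T₀, hC, -, H⟩ := h hRH
  obtain ⟨C', hC', H'⟩ := fin_comb2 (P := fun γ => MS.mz γ = 1) hC H
  refine ⟨C', hC', fun T hT n a b h1 h2 h3 => H' T hT n a b h1 h2 fun i γ hγ => ?_⟩
  rw [MS.P1.mz_eq]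
  exact h3 i γ hγ

end Pool.Agent.Lib.MP_6bc78b_nt.GP.H25
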