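import Pool.Agent.Lib.MP_6bc78b_nt.GP.H25.Fin2
import Pool.Agent.Lib.MP_6bc78b_nt.GP.H10.Mel
import Pool.Agent.Lib.MP_6bc78b_nt.GP.H13.Plc
import Pool.Agent.Lib.MP_6bc78b_nt.GP.H13.Are
import Pool.Agent.Lib.MP_6bc78b_nt.GP.H16.Grw
import Pool.Agent.Lib.MP_6bc78b_nt.GP.H30.Chb
import Pool.Agent.Lib.MP_6bc78b_nt.GP.H30.Tls
import Pool.Agent.Lib.MP_6bc78b_nt.GP.H32.Plt
import Pool.Agent.Lib.MP_6bc78b_nt.GP.H35.FEQ
import Pool.Agent.Lib.MP_6bc78b_nt.GP.H38.Dx2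
import Pool.Agent.Lib.MP_6bc78b_nt.GP.H4.AVG
import Pool.Agent.Lib.MP_6bc78b_nt.GP.H52.Lft
import Pool.Agent.Lib.MP_6bc78b_nt.GP.H64.Zms
import Pool.Agent.Lib.MP_6bc78b_nt.GP.H69.RGT
import Pool.Agent.Lib.MP_6bc78b_nt.GP.H79.RHB
import Pool.Agent.Lib.MP_6bc78b_nt.GP.H79.DX1
import Pool.Agent.Lib.MP_6bc78b_nt.GP.H82.Gami
import Pool.Agent.Lib.MP_6bc78b_nt.GP.H91.Etr
import Pool.Agent.Lib.MP_6bc78b_nt.GP.OMD
import Pool.Agent.Lib.MP_6bc78b_nt.GP.GSL

/-! Project GP: assembly, with the last modules as hypotheses. -/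

set_option autoImplicit false

namespace Pool.Agent.Lib.MP_6bc78b_nt.GP.H25

theorem gap_of (gamc : GAMCStatement) (ray : RAYStatement) (chv : CHVStatement)
    (con : RGTStatement → DX2Statement → GAMCStatement → CONStatement) : GapStatement2 := by
  have dx2 : DX2Statement := H38.dx2
  have etr : ETRStatement := H91.etr dx2
  have are : AREStatement := H13.are ray
  have avg : AVGStatement := avg are chv etr dx2
  have plt : PLTStatement := H32.plt H13.plc etr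
  have rgt : RGTStatement := H69.rgt H82.gami dx2
  have lft : LFTStatement := H52.lft H35.feq gsl omd dx2
  have tls : TLSStatement := H30.tls gamc
  exact fin2 (H30.chb H79.dx1 avg plt (con rgt dx2 gamc) lft tls)

end Pool.Agent.Lib.MP_6bc78b_nt.GP.H25
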