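import Pool.Agent.Lib.MP_6bc78b_nt.GP.Iface

/-! Project GP, module RAY: the second moment of `E` on a ray. -/

set_option autoImplicit false

open Complex Filter Topology MeasureTheory Set

namespace Pool.Agent.Lib.MP_6bc78b_nt.GP.H25

open Pool.Agent.Lib.MP_6bc78b_nt.MS Pool.Agent.Lib.MP_6bc78b_nt.MS.P1

/-- A power of a point on the ray. -/
theorem ray_cpow (c x φ t : ℝ) (h1 : -Real.pi < φ) (h2 : φ ≤ Real.pi) :
    ((Real.exp (-x) : ℝ) * Complex.exp (φ * I) : ℂ) ^ (-(c + t * I : ℂ)) =
      Complex.exp (c * x - c * φ * I) * (Complex.exp (φ * t) * Complex.exp (x * t * I)) := by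
  have e1 : ((Real.exp (-x) : ℝ) * Complex.exp (φ * I) : ℂ) = Complex.exp (-x + φ * I) := by
    rw [Complex.ofReal_exp, ← Complex.exp_add]
    push_cast
    rfl
  rw [e1, Complex.cpow_def_of_ne_zero (Complex.exp_ne_zero _), Complex.log_exp, ← Complex.exp_add,
    ← Complex.exp_add]
  · congr 1
    linear_combination (-(t : ℂ) * φ) * Complex.I_sq
  · simpa using h1
  · simpa using h2

theorem image_exp_neg : (fun x : ℝ => Real.exp (-x)) '' univ = Ioi (0 : ℝ) := by
  ext y
  simp only [image_univ, mem_range, mem_Ioi]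
  constructor
  · rintro ⟨x, rfl⟩
    exact Real.exp_pos _
  · intro hy
    exact ⟨-Real.log y, by rw [neg_neg, Real.exp_log hy]⟩

theorem ray (hM : MELStatement) (hP : PLCStatement) (hD : DMSStatement) : RAYStatement := by
  intro hRH A B D hIs
  obtain ⟨C, T0, hC, hT0, h⟩ := hD hRH A B D hIs
  refine ⟨C, T0, hC, hT0, fun T κ φ hT hκ1 hκ2 hφ => ?_⟩
  obtain ⟨hint, hle⟩ := h T κ φ hT hκ1 hκ2 hφ
  have hT10 : 10 < T := lt_of_lt_of_le hT0 hT
  have hκ0 : 0 < κ := lt_of_lt_of_le (by positivity) hκ1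
  have hlog : 1 < Real.log T := by
    rw [Real.lt_log_iff_exp_lt (by linarith)]
    have := Real.exp_one_lt_d9
    linarith
  set c := cT T with hc
  have hc1 : 1 / 2 < c := by
    rw [hc, cT]
    have : 0 < 1 / Real.log T := by positivity
    linarith
  have hc2 : c ≤ 3 / 2 := by
    rw [hc, cT]
    have : 1 / Real.log T ≤ 1 := by
      rw [div_le_one (by linarith)]; exact hlog.le
    linarith
  have hφ1 : |φ| < Real.pi / 2 := by linarith
  obtain ⟨hφ2, hφ3⟩ := abs_lt.1 hφ1
  have hpi := Real.pi_pos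
  have hcos : 0 < Real.cos φ := Real.cos_pos_of_mem_Ioo ⟨by linarith, hφ3⟩
  set g : ℝ → ℂ := fun w => D (c + w * I) * Complex.Gamma (c + w * I) * Complex.exp (φ * w)
    with hg
  have hzre : ∀ x : ℝ, 0 < ((Real.exp (-x) : ℝ) * Complex.exp (φ * I) : ℂ).re := by
    intro x
    rw [Complex.re_ofReal_mul, Complex.exp_ofReal_mul_I_re]
    positivity
  -- integrability of `g`
  have hgi : Integrable g := by
    have h1 := (hM hRH A B D hIs c _ hc1 hc2 (hzre 0)).1
    have h2 := h1.const_mul (Complex.exp (c * φ * I))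
    refine h2.congr (Filter.Eventually.of_forall fun t => ?_)
    simp only [hg]
    rw [ray_cpow c 0 φ t (by linarith) (by linarith)]
    have e1 : Complex.exp (c * φ * I) * Complex.exp (c * (0 : ℝ) - c * φ * I) = 1 := by
      rw [← Complex.exp_add, Complex.ofReal_zero, mul_zero, zero_sub, add_neg_cancel,
        Complex.exp_zero]
    have e2 : Complex.exp ((0 : ℝ) * t * I) = 1 := by simp
    rw [e2]
    linear_combination (D (c + t * I) * Complex.Gamma (c + t * I) * Complex.exp (φ * t)) * e1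
  -- the value of `E`
  have hE : ∀ x : ℝ, EE A B ((Real.exp (-x) : ℝ) * Complex.exp (φ * I)) =
      (1 / (2 * Real.pi) : ℂ) * (Complex.exp (c * x - c * φ * I) *
        ∫ w : ℝ, g w * Complex.exp (x * w * I)) := by
    intro x
    rw [(hM hRH A B D hIs c _ hc1 hc2 (hzre x)).2]
    unfold VI
    congr 1
    rw [← integral_const_mul]
    refine integral_congr_ae (Filter.Eventually.of_forall fun t => ?_)
    simp only [hg]
    rw [ray_cpow c x φ t (by linarith) (by linarith)]
    ring
  have hn : ∀ x : ℝ, ‖EE A B ((Real.exp (-x) : ℝ) * Complex.exp (φ * I))‖ ^ 2 =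
      1 / (4 * Real.pi ^ 2) * Real.exp (2 * c * x) *
        ‖∫ w : ℝ, g w * Complex.exp (x * w * I)‖ ^ 2 := by
    intro x
    rw [hE x, norm_mul, norm_mul, Complex.norm_exp]
    have e1 : ‖(1 / (2 * Real.pi) : ℂ)‖ = 1 / (2 * Real.pi) := by
      rw [norm_div, norm_one, norm_mul, Complex.norm_real, Real.norm_of_nonneg hpi.le]
      norm_num
    have e2 : ((c * x - c * φ * I : ℂ)).re = c * x := by
      simp
    rw [e1, e2]
    have e3 : Real.exp (2 * c * x) = Real.exp (c * x) ^ 2 := by
      rw [← Real.exp_nat_mul]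
      congr 1
      push_cast
      ring
    rw [e3]
    generalize ‖∫ w : ℝ, g w * Complex.exp (x * w * I)‖ = J
    field_simp
    ring
  -- change of variables
  have hcv : ∫⁻ r in Ioi (0 : ℝ), ENNReal.ofReal (‖EE A B (r * Complex.exp (φ * I))‖ ^ 2 *
      r ^ (2 * c - 1)) = ∫⁻ x : ℝ, ENNReal.ofReal (1 / (4 * Real.pi ^ 2)) *
        ENNReal.ofReal (‖∫ w : ℝ, g w * Complex.exp (x * w * I)‖ ^ 2) := by
    rw [← image_exp_neg, lintegral_image_eq_lintegral_abs_deriv_mul MeasurableSet.univ
      (f' := fun x => -Real.exp (-x)), Measure.restrict_univ]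
    · refine lintegral_congr fun x => ?_
      rw [abs_neg, abs_of_pos (Real.exp_pos _), ← ENNReal.ofReal_mul (Real.exp_pos _).le,
        ← ENNReal.ofReal_mul (by positivity), hn x]
      congr 1
      rw [← Real.exp_mul]
      have e4 : Real.exp (-x) * Real.exp (2 * c * x) * Real.exp (-x * (2 * c - 1)) = 1 := by
        rw [← Real.exp_add, ← Real.exp_add, Real.exp_eq_one_iff]
        ring
      generalize ‖∫ w : ℝ, g w * Complex.exp (x * w * I)‖ = J
      linear_combination (1 / (4 * Real.pi ^ 2) * J ^ 2) * e4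
    · intro x _
      have h7 : HasDerivAt (fun x : ℝ => Real.exp (-x)) (-Real.exp (-x)) x := by
        have h8 := (hasDerivAt_neg x).exp
        simpa using h8
      exact h7.hasDerivWithinAt
    · intro x _ y _ hxy
      have := Real.exp_injective hxy
      linarith
  rw [hcv, lintegral_const_mul' _ _ ENNReal.ofReal_ne_top]
  refine (mul_le_mul_right (hP g hgi) _).trans ?_
  have e5 : ∀ w : ℝ, ‖g w‖ ^ 2 = ‖D (c + w * I) * Complex.Gamma (c + w * I)‖ ^ 2 *
      Real.exp (2 * φ * w) := by
    intro w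
    simp only [hg]
    rw [norm_mul, Complex.norm_exp, mul_pow, ← Real.exp_nat_mul]
    congr 2
    simp
    ring
  have e6 : ∫⁻ w : ℝ, ENNReal.ofReal (‖g w‖ ^ 2) ≤ ENNReal.ofReal (C * Real.log T ^ 7 / κ) := by
    rw [lintegral_congr fun w => by rw [e5 w],
      ← ofReal_integral_eq_lintegral_ofReal hint (Filter.Eventually.of_forall fun w => by positivity)]
    exact ENNReal.ofReal_le_ofReal hle
  calc ENNReal.ofReal (1 / (4 * Real.pi ^ 2)) * (ENNReal.ofReal (2 * Real.pi) *
        ∫⁻ w : ℝ, ENNReal.ofReal (‖g w‖ ^ 2)) ≤ ENNReal.ofReal (1 / (4 * Real.pi ^ 2)) *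
          (ENNReal.ofReal (2 * Real.pi) * ENNReal.ofReal (C * Real.log T ^ 7 / κ)) := by gcongr
    _ = ENNReal.ofReal (1 / (4 * Real.pi ^ 2) * (2 * Real.pi * (C * Real.log T ^ 7 / κ))) := by
        rw [← ENNReal.ofReal_mul (by positivity), ← ENNReal.ofReal_mul (by positivity)]
    _ ≤ ENNReal.ofReal (C * Real.log T ^ 7 / κ) := by
        apply ENNReal.ofReal_le_ofReal
        have hX : 0 ≤ C * Real.log T ^ 7 / κ := by positivity
        have e7 : 1 / (4 * Real.pi ^ 2) * (2 * Real.pi * (C * Real.log T ^ 7 / κ)) =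
            1 / (2 * Real.pi) * (C * Real.log T ^ 7 / κ) := by
          field_simp
          norm_num
        rw [e7]
        have h3 : 1 / (2 * Real.pi) ≤ 1 := by
          rw [div_le_one (by positivity)]
          have := Real.pi_gt_three
          linarith
        nlinarith

end Pool.Agent.Lib.MP_6bc78b_nt.GP.H25
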